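import Pool.Agent.H44R2.Stk.Defs

/-!
# Task T4: linearisation of the system of recursions
-/

set_option autoImplicit false

namespace Pool.Agent.H965R2.Stk

open Finset Pool.Agent.H44R2.Stk

/-- the exponential coefficients of a product -/
theorem T4_mul (A B : PowerSeries ℂ) (n : ℕ) :
    (n.factorial : ℂ) * PowerSeries.coeff n (A * B) =
      ∑ j ∈ range (n + 1), (n.choose j : ℂ) * ((j.factorial : ℂ) * PowerSeries.coeff j A) *
        (((n - j).factorial : ℂ) * PowerSeries.coeff (n - j) B) := by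
  rw [PowerSeries.coeff_mul, Finset.Nat.sum_antidiagonal_eq_sum_range_succ_mk, Finset.mul_sum]
  refine Finset.sum_congr rfl fun j hj => ?_
  have hjn : j ≤ n := by
    have := Finset.mem_range.1 hj
    omega
  have h := Nat.choose_mul_factorial_mul_factorial hjn
  have h' : (n.choose j : ℂ) * (j.factorial : ℂ) * ((n - j).factorial : ℂ) =
      (n.factorial : ℂ) := by exact_mod_cast h
  rw [← h']
  ring

/-- the generating functions of `gg` -/
noncomputable def T4_G (y : ℂ) (k : ℕ) : PowerSeries ℂ :=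
  PowerSeries.mk fun n => gg y n k / (n.factorial : ℂ)

theorem T4_fac (n : ℕ) : (n.factorial : ℂ) ≠ 0 := by
  exact_mod_cast Nat.factorial_ne_zero n

theorem T4_coeff (y : ℂ) (n k : ℕ) :
    (n.factorial : ℂ) * PowerSeries.coeff n (T4_G y k) = gg y n k := by
  rw [T4_G, PowerSeries.coeff_mk, mul_div_cancel₀ _ (T4_fac n)]

theorem T4_deriv (A : PowerSeries ℂ) (n : ℕ) :
    (n.factorial : ℂ) * PowerSeries.coeff n (PowerSeries.derivative ℂ A) =
      ((n + 1).factorial : ℂ) * PowerSeries.coeff (n + 1) A := by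
  rw [PowerSeries.coeff_derivative, Nat.factorial_succ]
  push_cast
  ring

theorem T4_ext {A B : PowerSeries ℂ} (h : ∀ n, (n.factorial : ℂ) * PowerSeries.coeff n A =
    (n.factorial : ℂ) * PowerSeries.coeff n B) : A = B := by
  ext n
  exact mul_left_cancel₀ (T4_fac n) (h n)

theorem T4_D0 (y : ℂ) : PowerSeries.derivative ℂ (T4_G y 0) =
    PowerSeries.C (-y) * (T4_G y 0 + T4_G y 1) := by
  refine T4_ext fun n => ?_
  rw [T4_deriv, T4_coeff, PowerSeries.coeff_C_mul, map_add]
  have h0 := T4_coeff y n 0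
  have h1 := T4_coeff y n 1
  calc gg y (n + 1) 0 = -y * (gg y n 0 + gg y n 1) := by rw [gg]
    _ = _ := by rw [← h0, ← h1]; ring

theorem T4_D1 (y : ℂ) (k : ℕ) : PowerSeries.derivative ℂ (T4_G y (k + 1)) =
    PowerSeries.C (2 - y) * T4_G y (k + 1) + PowerSeries.C (1 - y) * T4_G y (k + 2) +
      T4_G y k := by
  refine T4_ext fun n => ?_
  rw [T4_deriv, T4_coeff, map_add, map_add, PowerSeries.coeff_C_mul, PowerSeries.coeff_C_mul]
  have h0 := T4_coeff y n k
  have h1 := T4_coeff y n (k + 1)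
  have h2 := T4_coeff y n (k + 2)
  calc gg y (n + 1) (k + 1) = (2 - y) * gg y n (k + 1) + (1 - y) * gg y n (k + 2) + gg y n k := by
        rw [gg]
    _ = _ := by rw [← h0, ← h1, ← h2]; ring

theorem T4_const0 (y : ℂ) : PowerSeries.constantCoeff (T4_G y 0) = 1 := by
  rw [← PowerSeries.coeff_zero_eq_constantCoeff_apply, T4_G, PowerSeries.coeff_mk]
  simp [gg]

theorem T4_const1 (y : ℂ) (k : ℕ) : PowerSeries.constantCoeff (T4_G y (k + 1)) = 0 := by
  rw [← PowerSeries.coeff_zero_eq_constantCoeff_apply, T4_G, PowerSeries.coeff_mk]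
  simp [gg]

/-- T4: linearisation -/
theorem exists_sys (y : ℂ) : ∃ F : ℕ → ℕ → ℂ, Sys y F ∧
    ∀ n, ∑ j ∈ range (n + 1), (n.choose j : ℂ) * (y * ((if j = 0 then 1 else 0) + F 1 j)) *
      gg y (n - j) 0 = -gg y (n + 1) 0 := by
  have hc : PowerSeries.constantCoeff (T4_G y 0) ≠ 0 := by
    rw [T4_const0]
    exact one_ne_zero
  have hG0 : T4_G y 0 ≠ 0 := by
    intro h
    rw [h] at hc
    simp at hc
  obtain ⟨Q, hQ⟩ : ∃ Q : PowerSeries ℂ, Q * T4_G y 0 = 1 :=
    ⟨(T4_G y 0)⁻¹, PowerSeries.inv_mul_cancel _ hc⟩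
  set P : ℕ → PowerSeries ℂ := fun k => T4_G y k * Q with hP
  have hPG : ∀ k, P k * T4_G y 0 = T4_G y k := fun k => by
    show T4_G y k * Q * T4_G y 0 = T4_G y k
    rw [mul_assoc, hQ, mul_one]
  have hP0 : P 0 = 1 := by
    show T4_G y 0 * Q = 1
    rw [mul_comm, hQ]
  have hD0 : PowerSeries.derivative ℂ (T4_G y 0) =
      PowerSeries.C (-y) * (1 + P 1) * T4_G y 0 := by
    rw [T4_D0]
    have := hPG 1
    calc PowerSeries.C (-y) * (T4_G y 0 + T4_G y 1)
        = PowerSeries.C (-y) * (T4_G y 0 + P 1 * T4_G y 0) := by rw [this]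
      _ = _ := by ring
  have hDP : ∀ k, PowerSeries.derivative ℂ (P (k + 1)) = P k + 2 * P (k + 1) +
      PowerSeries.C y * (P 1 * P (k + 1)) + PowerSeries.C (1 - y) * P (k + 2) := by
    intro k
    apply mul_right_cancel₀ hG0
    have h1 : PowerSeries.derivative ℂ (P (k + 1) * T4_G y 0) =
        PowerSeries.derivative ℂ (T4_G y (k + 1)) := by rw [hPG]
    rw [Derivation.leibniz, smul_eq_mul, smul_eq_mul, hD0, T4_D1, ← hPG k, ← hPG (k + 1),
      ← hPG (k + 2)] at h1
    have e1 : (PowerSeries.C (2 - y) : PowerSeries ℂ) = 2 - PowerSeries.C y := by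
      rw [map_sub]
      rfl
    have e2 : (PowerSeries.C (-y) : PowerSeries ℂ) = -PowerSeries.C y := map_neg _ _
    rw [e1, e2] at h1
    linear_combination h1
  have hPc : ∀ k, PowerSeries.constantCoeff (P (k + 1)) = 0 := fun k => by
    show PowerSeries.constantCoeff (T4_G y (k + 1) * Q) = 0
    rw [map_mul, T4_const1, zero_mul]
  refine ⟨fun k n => (n.factorial : ℂ) * PowerSeries.coeff n (P k), ⟨?_, ?_, ?_, ?_⟩, ?_⟩
  · simp [hP0]
  · intro n
    simp [hP0, PowerSeries.coeff_one]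
  · intro k
    show ((0).factorial : ℂ) * PowerSeries.coeff 0 (P (k + 1)) = 0
    rw [PowerSeries.coeff_zero_eq_constantCoeff_apply, hPc, mul_zero]
  · intro k n
    show ((n + 1).factorial : ℂ) * PowerSeries.coeff (n + 1) (P (k + 1)) = _
    have h2 : (2 : PowerSeries ℂ) = PowerSeries.C 2 := rfl
    rw [← T4_deriv, hDP, map_add, map_add, map_add, h2, PowerSeries.coeff_C_mul,
      PowerSeries.coeff_C_mul, PowerSeries.coeff_C_mul]
    have h3 := T4_mul (P 1) (P (k + 1)) n
    linear_combination y * h3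
  · intro n
    have h1 : (n.factorial : ℂ) * PowerSeries.coeff n (PowerSeries.derivative ℂ (T4_G y 0)) =
        (n.factorial : ℂ) * PowerSeries.coeff n (PowerSeries.C (-y) * (1 + P 1) * T4_G y 0) := by
      rw [hD0]
    rw [T4_deriv, T4_coeff, T4_mul] at h1
    rw [h1, ← Finset.sum_neg_distrib]
    refine Finset.sum_congr rfl fun j _ => ?_
    rw [T4_coeff, PowerSeries.coeff_C_mul, map_add, PowerSeries.coeff_one]
    split_ifs with hj
    · subst hj
      simp only [Nat.factorial_zero, Nat.cast_one]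
      ring
    · ring

end Pool.Agent.H965R2.Stk
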